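import Pool.Agent.Q239.OneP.Max
import Pool.Agent.Q239.OneP.Conn

/-!
# A maximal 1-plane graph of connectivity 5 with `3 (n - 2) / 5` crossings
-/

set_option autoImplicit false

namespace Pool.Agent.Results.MP_c4df14_co.ExtremalConnectivityFive

open Pool.Agent.Helper770.Crossing Pool.Agent.Q239.OneP

/-- There is a maximal 1-plane graph with `n = 27` vertices, connectivity exactly five,
`15 = 3 (n - 2) / 5` crossings and `90 = 18 (n - 2) / 5` edges. -/
theorem result : ∃ (G : SimpleGraph (Fin 27)) (D : Drawing G),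
    OnePlane D ∧ Maximal D ∧ KConnected 5 G ∧ ¬ KConnected 6 G ∧
      (D.crossings.ncard : ℚ) = 3 / 5 * (27 - 2) ∧ (G.edgeSet.ncard : ℚ) = 18 / 5 * (27 - 2) :=
  ⟨Gr, Dr, onePlane, maximal, five, not_six, by rw [crossings_card]; norm_num,
    by rw [edges_card]; norm_num⟩

end Pool.Agent.Results.MP_c4df14_co.ExtremalConnectivityFive
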